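import Pool.Agent.H90.FR.QFN

/-!
Module CEC: the first cohomology is finite dimensional.
-/

set_option autoImplicit false

namespace Pool.Agent.H90.FRM

open SC FR

section

variable {k K V : Type} [Field k] [Field K] [Algebra k K] [AddCommGroup V]
  [Module k V] [Module K V] [IsScalarTower k K V] {m : ℕ}

/-- the spaces `FF` are images of the supported functions -/
lemma FF_eq (w : Fin 3 → K) {G : Submodule k V} (g : Fin m → V)
    (hg : Submodule.span k (Set.range g) = G) (D : ℤ) (σ : Finset (Fin 3)) :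
    FF w G D σ = Submodule.map (ev k w g) (Finsupp.supported k k (Ind m D σ)) := by
  apply le_antisymm
  · unfold FF
    rw [Submodule.span_le]
    rintro v ⟨α, hα, hσ, u, hu, rfl⟩
    rw [← hg] at hu
    obtain ⟨c, rfl⟩ := (Submodule.mem_span_range_iff_exists_fun k).1 hu
    rw [SetLike.mem_coe, Finset.smul_sum]
    refine Submodule.sum_mem _ fun l _ => ?_
    rw [smul_comm]
    refine Submodule.smul_mem _ _ ?_
    refine ⟨Finsupp.single ((l, α) : Ix m) 1, ?_, ?_⟩
    · exact Finsupp.single_mem_supported k _ ⟨hα, hσ⟩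
    · rw [ev_single, one_smul]
  · rw [Finsupp.supported_eq_span_single, Submodule.map_span, Submodule.span_le]
    rintro v ⟨-, ⟨x, hx, rfl⟩, rfl⟩
    rw [SetLike.mem_coe, ev_single, one_smul]
    refine Submodule.subset_span ⟨x.2, hx.1, hx.2, g x.1, ?_, rfl⟩
    rw [← hg]
    exact Submodule.subset_span ⟨x.1, rfl⟩

end

/-- more vectors than the dimension are dependent -/
lemma exists_dep {k E : Type} [Field k] [AddCommGroup E] [Module k E] (P : Submodule k E)
    [FiniteDimensional k P] {r : ℕ} (hr : r = Module.finrank k P) (s : Fin (r + 1) → E)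
    (hs : ∀ l, s l ∈ P) : ∃ a : Fin (r + 1) → k, a ≠ 0 ∧ ∑ l, a l • s l = 0 := by
  have hdep : ¬ LinearIndependent k (fun l : Fin (r + 1) => (⟨s l, hs l⟩ : P)) := by
    intro hli
    have := hli.fintype_card_le_finrank
    rw [Fintype.card_fin] at this
    omega
  obtain ⟨a, ha, l0, hl0⟩ := Fintype.not_linearIndependent_iff.1 hdep
  refine ⟨a, fun h => hl0 (by rw [h]; rfl), ?_⟩
  have := congrArg Subtype.val ha
  simpa using this

/-- elements of `P ⊔ Q`: some combination lies in `Q` -/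
lemma exists_comb {k E : Type} [Field k] [AddCommGroup E] [Module k E] (P Q : Submodule k E)
    [FiniteDimensional k P] {r : ℕ} (hr : r = Module.finrank k P) (n : Fin (r + 1) → E)
    (hn : ∀ l, n l ∈ P ⊔ Q) : ∃ a : Fin (r + 1) → k, a ≠ 0 ∧ ∑ l, a l • n l ∈ Q := by
  choose s hs n' hn' hsn using fun l => Submodule.mem_sup.1 (hn l)
  obtain ⟨a, ha, ha'⟩ := exists_dep P hr s hs
  refine ⟨a, ha, ?_⟩
  have h1 : ∑ l, a l • n l = ∑ l, a l • n' l := by
    calc ∑ l, a l • n l = ∑ l, a l • (s l + n' l) := by simp only [hsn]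
      _ = ∑ l, a l • s l + ∑ l, a l • n' l := by
          rw [← Finset.sum_add_distrib]
          exact Finset.sum_congr rfl fun l _ => smul_add _ _ _
      _ = _ := by rw [ha', zero_add]
  rw [h1]
  exact Submodule.sum_mem _ fun l _ => Submodule.smul_mem _ _ (hn' l)

/-- decomposition of an element of a triple sum of kernels -/
lemma mem_three {k E F : Type} [Field k] [AddCommGroup E] [Module k E] [AddCommGroup F]
    [Module k F] (f : E →ₗ[k] F) (A B C : Submodule k E) {n : E}
    (hn : n ∈ (A ⊓ LinearMap.ker f) ⊔ (B ⊓ LinearMap.ker f) ⊔ (C ⊓ LinearMap.ker f)) :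
    ∃ u ∈ A, ∃ v ∈ B, ∃ w ∈ C, f u = 0 ∧ f v = 0 ∧ f w = 0 ∧ u + v + w = n := by
  obtain ⟨uv, huv, w', hw', hsum2⟩ := Submodule.mem_sup.1 hn
  obtain ⟨u, hu, v, hv, rfl⟩ := Submodule.mem_sup.1 huv
  exact ⟨u, hu.1, v, hv.1, w', hw'.1, hu.2, hv.2, hw'.2, hsum2⟩

theorem cec (qfn : T_QFN) (exa : T_EXA) : T_CEC := by
  intro k K V _ _ _ _ _ _ _ w G D _ hw
  obtain ⟨m, g, hg⟩ := Submodule.fg_iff_exists_fin_generating_family.1
    (Module.Finite.iff_fg.1 (inferInstance : Module.Finite k G))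
  obtain ⟨S, hS, hle⟩ := qfn k K V m w g D hw
  have hfin : FiniteDimensional k (Submodule.span k S) := FiniteDimensional.span_of_finite k hS
  obtain ⟨r, hr⟩ : ∃ r, r = Module.finrank k (Submodule.span k S) := ⟨_, rfl⟩
  refine ⟨r, ?_⟩
  intro x y z hxyz
  -- lifts
  have hX : ∀ l, ∃ X ∈ Finsupp.supported k k (Ind m D {0, 1}), ev k w g X = x l := fun l => by
    have := (hxyz l).1
    rw [FF_eq w g hg] at this
    exact this
  have hY : ∀ l, ∃ X ∈ Finsupp.supported k k (Ind m D {0, 2}), ev k w g X = y l := fun l => by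
    have := (hxyz l).2.1
    rw [FF_eq w g hg] at this
    exact this
  have hZ : ∀ l, ∃ X ∈ Finsupp.supported k k (Ind m D {1, 2}), ev k w g X = z l := fun l => by
    have := (hxyz l).2.2.1
    rw [FF_eq w g hg] at this
    exact this
  choose X hX1 hX2 using hX
  choose Y hY1 hY2 using hY
  choose Z hZ1 hZ2 using hZ
  have hmono : ∀ σ : Finset (Fin 3), Finsupp.supported k k (Ind m D σ) ≤
      Finsupp.supported k k (Ind m D Finset.univ) := by
    intro σ
    apply Finsupp.supported_mono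
    rintro i ⟨h1, h2⟩
    exact ⟨h1, fun j hj => absurd (Finset.mem_univ j) hj⟩
  have hn : ∀ l, X l - Y l + Z l ∈ Submodule.span k S ⊔
      ((Finsupp.supported k k (Ind m D {0, 1}) ⊓ LinearMap.ker (ev k w g)) ⊔
      (Finsupp.supported k k (Ind m D {0, 2}) ⊓ LinearMap.ker (ev k w g)) ⊔
      (Finsupp.supported k k (Ind m D {1, 2}) ⊓ LinearMap.ker (ev k w g))) := by
    intro l
    apply hle
    refine ⟨?_, ?_⟩
    · exact Submodule.add_mem _ (Submodule.sub_mem _ (hmono _ (hX1 l)) (hmono _ (hY1 l)))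
        (hmono _ (hZ1 l))
    · change ev k w g (X l - Y l + Z l) = 0
      rw [map_add, map_sub, hX2, hY2, hZ2]
      exact (hxyz l).2.2.2
  obtain ⟨a, ha, hsum⟩ := exists_comb _ _ hr _ hn
  refine ⟨a, ha, ?_⟩
  obtain ⟨u, hu, v, hv, w', hw', hu0, hv0, hw0, hsum2⟩ := mem_three _ _ _ _ hsum
  obtain ⟨a', ha1, b', hb1, c', hc1, e1, e2, e3⟩ := exa k m D (∑ l, a l • X l - u)
    (∑ l, a l • Y l + v) (∑ l, a l • Z l - w')
    (Submodule.sub_mem _ (Submodule.sum_mem _ fun l _ => Submodule.smul_mem _ _ (hX1 l)) hu)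
    (Submodule.add_mem _ (Submodule.sum_mem _ fun l _ => Submodule.smul_mem _ _ (hY1 l)) hv)
    (Submodule.sub_mem _ (Submodule.sum_mem _ fun l _ => Submodule.smul_mem _ _ (hZ1 l)) hw')
    (by
      have h1 : ∑ l, a l • (X l - Y l + Z l) =
          ∑ l, a l • X l - ∑ l, a l • Y l + ∑ l, a l • Z l := by
        rw [← Finset.sum_sub_distrib, ← Finset.sum_add_distrib]
        exact Finset.sum_congr rfl fun l _ => by rw [smul_add, smul_sub]
      have h2 : ∑ l, a l • X l - u - (∑ l, a l • Y l + v) + (∑ l, a l • Z l - w') =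
          (∑ l, a l • X l - ∑ l, a l • Y l + ∑ l, a l • Z l) - (u + v + w') := by abel
      rw [h2, ← h1, ← hsum2, sub_self])
  refine ⟨![ev k w g a', ev k w g b', ev k w g c'], ?_, ?_, ?_, ?_⟩
  · intro i
    rw [FF_eq w g hg]
    fin_cases i
    · exact ⟨a', ha1, rfl⟩
    · exact ⟨b', hb1, rfl⟩
    · exact ⟨c', hc1, rfl⟩
  · have h := congrArg (ev k w g) e1
    rw [map_sub, map_sub, hu0, sub_zero, map_sum] at h
    simp only [map_smul, hX2] at h
    exact h
  · have h := congrArg (ev k w g) e2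
    rw [map_add, map_sub, hv0, add_zero, map_sum] at h
    simp only [map_smul, hY2] at h
    exact h
  · have h := congrArg (ev k w g) e3
    rw [map_sub, map_sub, hw0, sub_zero, map_sum] at h
    simp only [map_smul, hZ2] at h
    exact h

end Pool.Agent.H90.FRM
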