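import Pool.Agent.H17.FR.Targets

/-!
Module EXA: cocycles of the free complex are coboundaries.
-/

set_option autoImplicit false

namespace Pool.Agent.H90.FRM

open SC FR

lemma mem_supp_iff {k : Type} [Field k] {m : ℕ} {s : Set (Ix m)} {x : Ix m →₀ k} :
    x ∈ Finsupp.supported k k s ↔ ∀ i, x i ≠ 0 → i ∈ s := by
  rw [Finsupp.mem_supported]
  constructor
  · intro h i hi
    exact h (Finsupp.mem_support_iff.2 hi)
  · intro h i hi
    exact h i (Finsupp.mem_support_iff.1 hi)

theorem exa : T_EXA := by
  intro k _ m D x y z hx hy hz hxyz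
  classical
  rw [mem_supp_iff] at hx hy hz
  have hx2 : ∀ i, x i ≠ 0 → 0 ≤ i.2 2 := fun i hi => (hx i hi).2 2 (by decide)
  have hy1 : ∀ i, y i ≠ 0 → 0 ≤ i.2 1 := fun i hi => (hy i hi).2 1 (by decide)
  have hz0 : ∀ i, z i ≠ 0 → 0 ≤ i.2 0 := fun i hi => (hz i hi).2 0 (by decide)
  have hs : ∀ i, x i - y i + z i = 0 := fun i => by
    have := DFunLike.congr_fun hxyz i
    simpa using this
  set a : Ix m →₀ k := -(x.filter fun i => i.2 0 < 0 ∧ 0 ≤ i.2 1) with ha
  have haT : ∀ i : Ix m, (i.2 0 < 0 ∧ 0 ≤ i.2 1) → a i = - x i := fun i hi => by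
    simp only [ha, Finsupp.neg_apply, Finsupp.filter_apply, if_pos hi]
  have haF : ∀ i : Ix m, ¬ (i.2 0 < 0 ∧ 0 ≤ i.2 1) → a i = 0 := fun i hi => by
    simp only [ha, Finsupp.neg_apply, Finsupp.filter_apply, if_neg hi, neg_zero]
  have hzx : ∀ i, z i = y i - x i := fun i => by
    linear_combination hs i
  refine ⟨a, ?_, x + a, ?_, y + a, ?_, ?_, ?_, ?_⟩
  · rw [mem_supp_iff]
    intro i hi
    by_cases h : i.2 0 < 0 ∧ 0 ≤ i.2 1
    · rw [haT i h] at hi
      have hxi : x i ≠ 0 := by
        intro h0
        rw [h0, neg_zero] at hi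
        exact hi rfl
      refine ⟨(hx i hxi).1, fun j hj => ?_⟩
      fin_cases j
      · exact absurd (by decide) hj
      · exact h.2
      · exact hx2 i hxi
    · exact absurd (haF i h) hi
  · rw [mem_supp_iff]
    intro i hi
    rw [Finsupp.add_apply] at hi
    by_cases h : i.2 0 < 0 ∧ 0 ≤ i.2 1
    · rw [haT i h, add_neg_cancel] at hi
      exact absurd rfl hi
    · rw [haF i h, add_zero] at hi
      refine ⟨(hx i hi).1, fun j hj => ?_⟩
      have h0 : 0 ≤ i.2 0 := by
        by_contra h1
        push Not at h1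
        have h2 : i.2 1 < 0 := by
          by_contra h3
          push Not at h3
          exact h ⟨h1, h3⟩
        have h4 : y i = 0 := by
          by_contra h5
          have := hy1 i h5
          omega
        have h6 : z i ≠ 0 := by
          rw [hzx i, h4, zero_sub]
          exact neg_ne_zero.2 hi
        have := hz0 i h6
        omega
      fin_cases j
      · exact h0
      · exact absurd (by decide) hj
      · exact hx2 i hi
  · rw [mem_supp_iff]
    intro i hi
    rw [Finsupp.add_apply] at hi
    by_cases h : i.2 0 < 0 ∧ 0 ≤ i.2 1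
    · rw [haT i h, ← sub_eq_add_neg, ← hzx i] at hi
      have := hz0 i hi
      omega
    · rw [haF i h, add_zero] at hi
      refine ⟨(hy i hi).1, fun j hj => ?_⟩
      have h1 := hy1 i hi
      have h0 : 0 ≤ i.2 0 := by
        by_contra h2
        push Not at h2
        exact h ⟨h2, h1⟩
      fin_cases j
      · exact h0
      · exact h1
      · exact absurd (by decide) hj
  · rw [add_sub_cancel_right]
  · rw [add_sub_cancel_right]
  · rw [add_sub_add_right_eq_sub]
    ext i
    rw [Finsupp.sub_apply]
    exact hzx i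

end Pool.Agent.H90.FRM
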