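import Pool.Agent.H17.FR.Targets

/-!
Module NOE: the homogeneous relations are finitely generated.
-/

set_option autoImplicit false

namespace Pool.Agent.H90.FRM

open SC FR

lemma hc_mul {k : Type} [Field k] {p t : MvPolynomial (Fin 3) k} {b d : ℕ}
    (ht : t.IsHomogeneous b) :
    MvPolynomial.homogeneousComponent d (p * t) =
      if b ≤ d then MvPolynomial.homogeneousComponent (d - b) p * t else 0 := by
  classical
  have ht' : t ∈ MvPolynomial.homogeneousSubmodule (Fin 3) k b := ht
  let _ := MvPolynomial.gradedAlgebra (σ := Fin 3) (R := k)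
  have h1 := DirectSum.coe_decompose_mul_of_right_mem
    (MvPolynomial.homogeneousSubmodule (Fin 3) k) (a := p) d ht'
  have h2 : ∀ (q : MvPolynomial (Fin 3) k) (i : ℕ),
      ((DirectSum.decompose (MvPolynomial.homogeneousSubmodule (Fin 3) k) q i :
        MvPolynomial.homogeneousSubmodule (Fin 3) k i) : MvPolynomial (Fin 3) k) =
        MvPolynomial.homogeneousComponent i q := by
    intro q i
    exact MvPolynomial.decomposition.decompose'_apply q i
  rwa [h2, h2] at h1

theorem noe : T_NOE := by
  intro k K V _ _ _ _ _ m w g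
  classical
  set S : Set (Fin m → MvPolynomial (Fin 3) k) := ⋃ d, Rel k w g d with hS
  have hfg : (Submodule.span (MvPolynomial (Fin 3) k) S).FG := IsNoetherian.noetherian _
  obtain ⟨s', hs', hspan⟩ := (Submodule.fg_span_iff_fg_span_finset_subset S).1 hfg
  have hex : ∀ t : s', ∃ b, t.1 ∈ Rel k w g b := fun t => by
    have := hs' t.2
    rw [hS, Set.mem_iUnion] at this
    exact this
  choose b0 hb0 using hex
  refine ⟨s'.card, fun i => b0 (s'.equivFin.symm i), fun i => (s'.equivFin.symm i).1,
    fun i => hb0 _, ?_⟩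
  intro d p hp
  have hp2 : p ∈ Submodule.span (MvPolynomial (Fin 3) k)
      (Set.range fun i : Fin s'.card => (s'.equivFin.symm i).1) := by
    have h1 : (Set.range fun i : Fin s'.card => (s'.equivFin.symm i).1) = (s' : Set _) := by
      ext x
      constructor
      · rintro ⟨i, rfl⟩
        exact (s'.equivFin.symm i).2
      · intro hx
        exact ⟨s'.equivFin ⟨x, hx⟩, by simp⟩
    rw [h1, ← hspan]
    exact Submodule.subset_span (Set.mem_iUnion.2 ⟨d, hp⟩)
  obtain ⟨c, hc⟩ := (Submodule.mem_span_range_iff_exists_fun _).1 hp2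
  refine ⟨fun i => if b0 (s'.equivFin.symm i) ≤ d then
    MvPolynomial.homogeneousComponent (d - b0 (s'.equivFin.symm i)) (c i) else 0, ?_, ?_⟩
  · intro i
    simp only
    split_ifs with h
    · exact Or.inr ⟨h, MvPolynomial.homogeneousComponent_isHomogeneous _ _⟩
    · exact Or.inl rfl
  · intro l
    have h1 : p l = ∑ i, c i * (s'.equivFin.symm i).1 l := by
      rw [← hc, Finset.sum_apply]
      rfl
    have h2 : MvPolynomial.homogeneousComponent d (p l) = p l := by
      rw [MvPolynomial.homogeneousComponent_of_mem (hp.1 l)]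
      simp
    rw [← h2, h1, map_sum]
    refine Finset.sum_congr rfl fun i _ => ?_
    rw [hc_mul ((hb0 _).1 l)]
    beta_reduce
    split_ifs with h
    · rfl
    · rw [zero_mul]

end Pool.Agent.H90.FRM
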