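import Pool.Agent.H90.FR.EXA

/-!
Module QFN: the cokernel is finite dimensional.
-/

set_option autoImplicit false

namespace Pool.Agent.H90.FRM

open SC FR MvPolynomial

section

variable {k : Type} [Field k] {m : ℕ}

/-- the Laurent monomials with position `l`, shifted by `γ` -/
noncomputable def shl (l : Fin m) (γ : Fin 3 → ℤ) :
    MvPolynomial (Fin 3) k →ₗ[k] (Ix m →₀ k) :=
  (basisMonomials (Fin 3) k).constr k
    fun β : Fin 3 →₀ ℕ => Finsupp.single ((l, fun j => (β j : ℤ) + γ j) : Ix m) (1 : k)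

lemma shl_monomial (l : Fin m) (γ : Fin 3 → ℤ) (β : Fin 3 →₀ ℕ) (c : k) :
    shl l γ (monomial β c) = Finsupp.single ((l, fun j => (β j : ℤ) + γ j) : Ix m) c := by
  have h1 : (monomial β c : MvPolynomial (Fin 3) k) = c • basisMonomials (Fin 3) k β := by
    rw [coe_basisMonomials, smul_monomial, smul_eq_mul, mul_one]
  rw [h1, map_smul]
  unfold shl
  rw [Module.Basis.constr_basis, Finsupp.smul_single, smul_eq_mul, mul_one]

/-- the shift of a vector of polynomials -/
noncomputable def sh (γ : Fin 3 → ℤ) (t : Fin m → MvPolynomial (Fin 3) k) : Ix m →₀ k :=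
  ∑ l, shl l γ (t l)

lemma sh_add (γ : Fin 3 → ℤ) (t t' : Fin m → MvPolynomial (Fin 3) k) :
    sh γ (t + t') = sh γ t + sh γ t' := by
  unfold sh
  rw [← Finset.sum_add_distrib]
  exact Finset.sum_congr rfl fun l _ => by rw [Pi.add_apply, map_add]

lemma sh_smul (γ : Fin 3 → ℤ) (c : k) (t : Fin m → MvPolynomial (Fin 3) k) :
    sh γ (c • t) = c • sh γ t := by
  unfold sh
  rw [Finset.smul_sum]
  exact Finset.sum_congr rfl fun l _ => by rw [Pi.smul_apply, map_smul]

/-- as a linear map -/
noncomputable def shL (γ : Fin 3 → ℤ) : (Fin m → MvPolynomial (Fin 3) k) →ₗ[k] (Ix m →₀ k) where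
  toFun := sh γ
  map_add' := sh_add γ
  map_smul' := sh_smul γ

lemma shL_apply (γ : Fin 3 → ℤ) (t : Fin m → MvPolynomial (Fin 3) k) : shL γ t = sh γ t := rfl

lemma sh_sum {ι : Type*} (S : Finset ι) (γ : Fin 3 → ℤ)
    (t : ι → Fin m → MvPolynomial (Fin 3) k) :
    sh γ (fun l => ∑ i ∈ S, t i l) = ∑ i ∈ S, sh γ (t i) := by
  have h : (fun l => ∑ i ∈ S, t i l) = ∑ i ∈ S, t i := by
    funext l
    rw [Finset.sum_apply]
  rw [h]
  exact map_sum (shL γ) t S

/-- induction principle for vectors of polynomials: reduce to a polynomial statement -/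
lemma shl_mul (l : Fin m) (γ : Fin 3 → ℤ) (β : Fin 3 →₀ ℕ) (c : k)
    (p : MvPolynomial (Fin 3) k) :
    shl l γ (monomial β c * p) = c • shl l (fun j => (β j : ℤ) + γ j) p := by
  induction p using MvPolynomial.induction_on' with
  | monomial β' c' =>
    rw [monomial_mul, shl_monomial, shl_monomial, Finsupp.smul_single, smul_eq_mul]
    congr 2
    funext j
    rw [Finsupp.add_apply]
    push_cast
    ring
  | add p q hp hq => rw [mul_add, map_add, map_add, hp, hq, smul_add]

lemma sh_mul (γ : Fin 3 → ℤ) (h : MvPolynomial (Fin 3) k)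
    (t : Fin m → MvPolynomial (Fin 3) k) :
    sh γ (fun l => h * t l) = ∑ β ∈ h.support, coeff β h • sh (fun j => (β j : ℤ) + γ j) t := by
  have h1 : (fun l => h * t l) = fun l => ∑ β ∈ h.support, monomial β (coeff β h) * t l := by
    funext l
    rw [← Finset.sum_mul, support_sum_monomial_coeff]
  rw [h1, sh_sum]
  refine Finset.sum_congr rfl fun β _ => ?_
  unfold sh
  rw [Finset.smul_sum]
  exact Finset.sum_congr rfl fun l _ => shl_mul l γ β _ _

/-- supports -/
lemma sh_supported {b : ℕ} {D : ℤ} {σ : Finset (Fin 3)} {γ : Fin 3 → ℤ}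
    {t : Fin m → MvPolynomial (Fin 3) k} (ht : ∀ l, (t l).IsHomogeneous b)
    (hγ : ∑ j, γ j = - D - b) (hσ : ∀ j, j ∉ σ → 0 ≤ γ j) :
    sh γ t ∈ Finsupp.supported k k (Ind m D σ) := by
  unfold sh
  refine Submodule.sum_mem _ fun l _ => ?_
  have h1 : t l = ∑ β ∈ (t l).support, monomial β (coeff β (t l)) :=
    (support_sum_monomial_coeff _).symm
  rw [h1, map_sum]
  refine Submodule.sum_mem _ fun β hβ => ?_
  rw [shl_monomial]
  refine Finsupp.single_mem_supported k _ ?_
  have h2 : ∑ j, β j = b := by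
    have h3 := (ht l) (mem_support_iff.1 hβ)
    rw [← h3, Finsupp.weight_apply, Finsupp.sum_fintype]
    · simp
    · simp
  refine ⟨?_, ?_⟩
  · simp only
    rw [Finset.sum_add_distrib, hγ]
    have : ∑ j, (β j : ℤ) = b := by
      exact_mod_cast h2
    rw [this]
    ring
  · intro j hj
    have := hσ j hj
    simp only
    positivity

end

section

variable {k K V : Type} [Field k] [Field K] [Algebra k K] [AddCommGroup V]
  [Module k V] [Module K V] [IsScalarTower k K V] {m : ℕ}

lemma mon_add {w : Fin 3 → K} (hw : ∀ i, w i ≠ 0) (α β : Fin 3 → ℤ) :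
    mon w (fun j => α j + β j) = mon w α * mon w β := by
  unfold mon
  rw [← Finset.prod_mul_distrib]
  exact Finset.prod_congr rfl fun j _ => zpow_add₀ (hw j) _ _

lemma mon_ne {w : Fin 3 → K} (hw : ∀ i, w i ≠ 0) (α : Fin 3 → ℤ) : mon w α ≠ 0 := by
  unfold mon
  exact Finset.prod_ne_zero_iff.2 fun j _ => zpow_ne_zero _ (hw j)

lemma mon_nat (w : Fin 3 → K) (β : Fin 3 →₀ ℕ) (c : k) :
    aeval w (monomial β c) = algebraMap k K c * mon w (fun j => (β j : ℤ)) := by
  rw [aeval_monomial]
  congr 1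
  unfold mon
  rw [Finsupp.prod_fintype]
  · exact Finset.prod_congr rfl fun j _ => by rw [zpow_natCast]
  · simp

omit [Algebra k K] [IsScalarTower k K V] in
lemma ev_single (w : Fin 3 → K) (g : Fin m → V) (x : Ix m) (c : k) :
    ev k w g (Finsupp.single x c) = c • (mon w x.2 • g x.1) := by
  unfold ev
  rw [Finsupp.linearCombination_single]

lemma ev_shl {w : Fin 3 → K} (hw : ∀ i, w i ≠ 0) (g : Fin m → V) (l : Fin m)
    (γ : Fin 3 → ℤ) (p : MvPolynomial (Fin 3) k) :
    ev k w g (shl l γ p) = mon w γ • (aeval w p • g l) := by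
  induction p using MvPolynomial.induction_on' with
  | monomial β c =>
    rw [shl_monomial, ev_single, mon_nat]
    simp only
    rw [mon_add hw, ← algebraMap_smul K c, smul_smul, smul_smul]
    congr 1
    ring
  | add p q hp hq => rw [map_add, map_add, map_add, hp, hq, add_smul, smul_add]

lemma ev_sh {w : Fin 3 → K} (hw : ∀ i, w i ≠ 0) (g : Fin m → V)
    (γ : Fin 3 → ℤ) (t : Fin m → MvPolynomial (Fin 3) k) :
    ev k w g (sh γ t) = mon w γ • ∑ l, aeval w (t l) • g l := by
  unfold sh
  rw [map_sum, Finset.smul_sum]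
  exact Finset.sum_congr rfl fun l _ => ev_shl hw g l γ _

end

section

variable {k : Type} [Field k] {m : ℕ}

/-- the exponent `α + M` -/
noncomputable def expo (M : ℕ) (α : Fin 3 → ℤ) : Fin 3 →₀ ℕ :=
  Finsupp.equivFunOnFinite.symm fun j => (α j + M).toNat

lemma expo_apply (M : ℕ) (α : Fin 3 → ℤ) (j : Fin 3) : expo M α j = (α j + M).toNat := rfl

/-- the polynomial lift -/
noncomputable def lft (M : ℕ) (n : Ix m →₀ k) (l : Fin m) : MvPolynomial (Fin 3) k :=
  ∑ x ∈ n.support, if x.1 = l then monomial (expo M x.2) (n x) else 0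

lemma sh_lft {M : ℕ} {n : Ix m →₀ k} (hM : ∀ x ∈ n.support, ∀ j, 0 ≤ x.2 j + M) :
    sh (fun _ => -(M : ℤ)) (lft M n) = n := by
  have h1 : lft M n = fun l => ∑ x ∈ n.support,
      (fun x l => if x.1 = l then monomial (expo M x.2) (n x) else 0) x l := rfl
  rw [h1, sh_sum]
  conv_rhs => rw [← Finsupp.sum_single n]
  refine Finset.sum_congr rfl fun x hx => ?_
  unfold sh
  rw [Finset.sum_eq_single x.1]
  · simp only [if_true]
    rw [shl_monomial]
    congr 1
    ext
    · rfl
    · simp only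
      rw [expo_apply, Int.toNat_of_nonneg (hM x hx _)]
      ring
  · intro l _ hl
    beta_reduce
    rw [if_neg (Ne.symm hl), map_zero]
  · intro h
    exact absurd (Finset.mem_univ _) h

lemma lft_hom {M : ℕ} {D : ℤ} {n : Ix m →₀ k} (hM : ∀ x ∈ n.support, ∀ j, 0 ≤ x.2 j + M)
    (hn : n ∈ Finsupp.supported k k (Ind m D Finset.univ)) {d : ℕ} (hd : (d : ℤ) = 3 * M - D)
    (l : Fin m) : (lft M n l).IsHomogeneous d := by
  unfold lft
  refine IsHomogeneous.sum _ _ _ fun x hx => ?_
  split_ifs with h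
  · apply isHomogeneous_monomial
    have h1 := ((mem_supp_iff.1 hn) x (Finsupp.mem_support_iff.1 hx)).1
    have h2 : ((Finsupp.degree (expo M x.2) : ℕ) : ℤ) = d := by
      rw [hd, Finsupp.degree_eq_sum]
      push_cast
      rw [Fin.sum_univ_three] at h1 ⊢
      rw [expo_apply, expo_apply, expo_apply, Int.toNat_of_nonneg (hM x hx _),
        Int.toNat_of_nonneg (hM x hx _), Int.toNat_of_nonneg (hM x hx _)]
      linarith
    exact_mod_cast h2
  · exact isHomogeneous_zero _ _ _

end

theorem qfn (noe : T_NOE) : T_QFN := by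
  intro k K V _ _ _ _ _ _ _ m w g D hw
  obtain ⟨r, b, t, ht, hrel⟩ := noe k K V m w g
  set S : Set (Ix m →₀ k) := {n | ∃ i : Fin r, ∃ γ : Fin 3 → ℤ, (∀ j, γ j ≤ -1) ∧
    ∑ j, γ j = - D - b i ∧ n = sh γ (t i)} with hS
  refine ⟨S, ?_, ?_⟩
  · -- finiteness
    have h1 : S ⊆ ⋃ i : Fin r, (fun γ => sh γ (t i)) ''
        Set.Icc (fun _ => - D - b i) (fun _ => (-1 : ℤ)) := by
      rintro n ⟨i, γ, h2, h3, rfl⟩
      refine Set.mem_iUnion.2 ⟨i, γ, ⟨fun j => ?_, fun j => h2 j⟩, rfl⟩
      rw [Fin.sum_univ_three] at h3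
      have h20 := h2 0
      have h21 := h2 1
      have h22 := h2 2
      fin_cases j
      · show - D - b i ≤ γ 0
        omega
      · show - D - b i ≤ γ 1
        omega
      · show - D - b i ≤ γ 2
        omega
    refine Set.Finite.subset (Set.finite_iUnion fun i => ?_) h1
    exact (Set.finite_Icc _ _).image _
  · rintro n ⟨hn1, hn2⟩
    have hn2' : ev k w g n = 0 := hn2
    -- the shift
    set M : ℕ := ∑ x ∈ n.support, ∑ j, (x.2 j).natAbs + D.natAbs with hM
    have hMx : ∀ x ∈ n.support, ∀ j, 0 ≤ x.2 j + M := by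
      intro x hx j
      have h1 : (x.2 j).natAbs ≤ ∑ j, (x.2 j).natAbs :=
        Finset.single_le_sum (f := fun j => (x.2 j).natAbs) (fun _ _ => Nat.zero_le _)
          (Finset.mem_univ j)
      have h2 : ∑ j, (x.2 j).natAbs ≤ ∑ x ∈ n.support, ∑ j, (x.2 j).natAbs :=
        Finset.single_le_sum (f := fun x : Ix m => ∑ j, (x.2 j).natAbs)
          (fun _ _ => Nat.zero_le _) hx
      omega
    obtain ⟨d, hd⟩ : ∃ d : ℕ, (d : ℤ) = 3 * M - D := by
      refine ⟨(3 * M - D).toNat, ?_⟩
      rw [Int.toNat_of_nonneg]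
      omega
    have hp : lft M n ∈ Rel k w g d := by
      refine ⟨fun l => lft_hom hMx hn1 hd l, ?_⟩
      have h1 := ev_sh hw g (fun _ => -(M : ℤ)) (lft M n)
      rw [sh_lft hMx, hn2'] at h1
      have h2 := (smul_eq_zero.1 h1.symm).resolve_left (mon_ne hw _)
      exact h2
    obtain ⟨h, hh1, hh2⟩ := hrel d (lft M n) hp
    have hn3 : n = ∑ i, ∑ β ∈ (h i).support,
        coeff β (h i) • sh (fun j => (β j : ℤ) + -(M : ℤ)) (t i) := by
      conv_lhs => rw [← sh_lft hMx]
      have h1 : lft M n = fun l => ∑ i, (fun i l => h i * t i l) i l := by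
        funext l
        exact hh2 l
      rw [h1, sh_sum]
      exact Finset.sum_congr rfl fun i _ => sh_mul _ _ _
    rw [hn3]
    refine Submodule.sum_mem _ fun i _ => Submodule.sum_mem _ fun β hβ =>
      Submodule.smul_mem _ _ ?_
    have hhi : h i ≠ 0 := by
      intro h0
      rw [h0] at hβ
      simp at hβ
    obtain ⟨hbd, hhom⟩ := (hh1 i).resolve_left hhi
    have hβd : ∑ j, (β j : ℤ) = d - b i := by
      have h3 := hhom (mem_support_iff.1 hβ)
      have h4 : ∑ j, β j = d - b i := by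
        rw [← h3, Finsupp.weight_apply, Finsupp.sum_fintype]
        · simp
        · simp
      have h5 : ((∑ j, β j : ℕ) : ℤ) = ((d - b i : ℕ) : ℤ) := by rw [h4]
      rw [Nat.cast_sub hbd] at h5
      push_cast at h5
      exact h5
    set γ : Fin 3 → ℤ := fun j => (β j : ℤ) + -(M : ℤ) with hγ
    have hγs : ∑ j, γ j = - D - b i := by
      simp only [hγ]
      rw [Finset.sum_add_distrib, hβd, hd]
      simp
      ring
    have hker : sh γ (t i) ∈ LinearMap.ker (ev k w g) := by
      rw [LinearMap.mem_ker, ev_sh hw, (ht i).2, smul_zero]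
    by_cases hall : ∀ j, γ j ≤ -1
    · exact Submodule.mem_sup_left (Submodule.subset_span ⟨i, γ, hall, hγs, rfl⟩)
    · push Not at hall
      obtain ⟨j, hj⟩ := hall
      have hj0 : 0 ≤ γ j := by omega
      refine Submodule.mem_sup_right ?_
      have hfin : j = 0 ∨ j = 1 ∨ j = 2 := by
        fin_cases j <;> simp
      rcases hfin with rfl | rfl | rfl
      · refine Submodule.mem_sup_right ⟨sh_supported (ht i).1 hγs fun j hj => ?_, hker⟩
        fin_cases j
        · exact hj0
        · exact absurd (by decide) hj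
        · exact absurd (by decide) hj
      · refine Submodule.mem_sup_left (Submodule.mem_sup_right
          ⟨sh_supported (ht i).1 hγs fun j hj => ?_, hker⟩)
        fin_cases j
        · exact absurd (by decide) hj
        · exact hj0
        · exact absurd (by decide) hj
      · refine Submodule.mem_sup_left (Submodule.mem_sup_left
          ⟨sh_supported (ht i).1 hγs fun j hj => ?_, hker⟩)
        fin_cases j
        · exact absurd (by decide) hj
        · exact absurd (by decide) hj
        · exact hj0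

end Pool.Agent.H90.FRM
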